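import Pool.Agent.Q234.KG.Stm

/-!
# Project KG (helper234), job JP: the bound of the perturbation terms, for all local dimensions
(after `Pool/Agent/Q277/KT/JP.lean`, `Pool/Agent/Q121/KT/J2.lean`)
-/

set_option autoImplicit false
set_option linter.unusedSectionVars false
set_option linter.unusedVariables false

open scoped BigOperators
open Finset Pool.Agent.Q234.KG
open Pool.Agent.Q234.KT (IsSize)

namespace Pool.Agent.Q123.KG.JP

section

variable {V : Type} [Fintype V] [DecidableEq V] {d : ℕ} [NeZero d]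

theorem nx_nonneg {r : ℝ} (hr : 1 ≤ r) (t : Finset V → ℕ) (S : Finset V) (x : V)
    (F : (V → Fin d) → ℂ) : 0 ≤ nx r t S x F :=
  sum_nonneg fun X _ => mul_nonneg (norm_nonneg _) (pow_nonneg (by linarith) _)

theorem nm_nonneg {r : ℝ} (hr : 1 ≤ r) (t : Finset V → ℕ) (S : Finset V)
    (F : (V → Fin d) → ℂ) : 0 ≤ nm r t S F :=
  sum_nonneg fun X _ => mul_nonneg (norm_nonneg _) (pow_nonneg (by linarith) _)

theorem nb_nonneg {r : ℝ} (hr : 1 ≤ r) (t : Finset V → ℕ) (x : V)
    (c : (V → Fin d) → ℂ) : 0 ≤ nb r t x c :=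
  sum_nonneg fun X _ => mul_nonneg (mul_nonneg (Nat.cast_nonneg _) (norm_nonneg _))
    (pow_nonneg (by linarith) _)

theorem nx_le_nm {r : ℝ} (hr : 1 ≤ r) (t : Finset V → ℕ) (S : Finset V) (x : V)
    (F : (V → Fin d) → ℂ) : nx r t S x F ≤ nm r t S F :=
  sum_le_sum_of_subset_of_nonneg (filter_subset _ _)
    fun X _ _ => mul_nonneg (norm_nonneg _) (pow_nonneg (by linarith) _)

theorem co_add (F G : (V → Fin d) → ℂ) (X : V → Fin d) :
    co (fun σ => F σ + G σ) X = co F X + co G X := by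
  unfold co
  rw [← mul_add, ← sum_add_distrib]
  congr 1
  exact sum_congr rfl fun σ _ => by ring

theorem co_Gp (h1 : FourS) (g : (V → Fin d) → ℂ) (A X : V → Fin d) :
    co (Gp g A) X = g X * (ch X A - 1) :=
  (h1 d V).2.1 (fun X => g X * (ch X A - 1)) X

theorem nx_add {r : ℝ} (hr : 1 ≤ r) (t : Finset V → ℕ) (S : Finset V) (x : V)
    (F G : (V → Fin d) → ℂ) :
    nx r t S x (fun σ => F σ + G σ) ≤ nx r t S x F + nx r t S x G := by
  unfold nx
  rw [← sum_add_distrib]
  refine sum_le_sum fun X _ => ?_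
  rw [co_add, ← add_mul]
  exact mul_le_mul_of_nonneg_right (norm_add_le _ _) (pow_nonneg (by linarith) _)

theorem Gp_sub (g g' : (V → Fin d) → ℂ) (A σ : V → Fin d) :
    Gp (fun X => g X - g' X) A σ = Gp g A σ - Gp g' A σ := by
  unfold Gp
  rw [← sum_sub_distrib]
  exact sum_congr rfl fun X _ => by ring

theorem Gp_zero (A σ : V → Fin d) : Gp (fun _ => 0) A σ = 0 := by
  unfold Gp
  exact sum_eq_zero fun X _ => by simp

theorem mem_sp {m : V → Fin d} {v : V} : v ∈ sp m ↔ m v ≠ 0 := by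
  unfold sp
  simp

theorem norm_Gp (h1 : FourS) (g : (V → Fin d) → ℂ) (A X : V → Fin d) :
    ‖g X * (ch X A - 1)‖ ≤ if (sp X ∩ sp A).Nonempty then 2 * ‖g X‖ else 0 := by
  split_ifs with h
  · rw [norm_mul, mul_comm]
    refine mul_le_mul_of_nonneg_right ?_ (norm_nonneg _)
    have h2 : ‖ch X A‖ = 1 := (h1 d V).2.2.2.2.2.2.2.1 X A
    calc ‖ch X A - 1‖ ≤ ‖ch X A‖ + ‖(1 : ℂ)‖ := norm_sub_le _ _
      _ = 2 := by rw [h2, norm_one]; norm_num
  · have h2 : ch X A = 1 := by
      refine (h1 d V).2.2.2.2.2.2.2.2.1 X A fun v => ?_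
      by_contra hcon
      push Not at hcon
      exact h ⟨v, mem_inter.2 ⟨mem_sp.2 hcon.1, mem_sp.2 hcon.2⟩⟩
    rw [h2, sub_self, mul_zero, norm_zero]

/-- a single term of `nm` or `nx` of `Gp` -/
theorem term_le (h1 : FourS) {t : Finset V → ℕ} (ht : IsSize t) {r : ℝ} (hr : 1 ≤ r)
    (c : (V → Fin d) → ℂ) {A : V → Fin d} {B : Finset V} (hAB : sp A ⊆ B) {b : ℕ} (hb : t B ≤ b)
    (X : V → Fin d) :
    ‖co (Gp c A) X‖ * r ^ t (B ∪ sp X) ≤
      if (sp X ∩ B).Nonempty then 2 * r ^ b * (‖c X‖ * r ^ t (sp X)) else 0 := by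
  rw [co_Gp h1]
  have hr0 : 0 ≤ r := by linarith
  have h3 := norm_Gp h1 c A X
  by_cases ho : (sp X ∩ sp A).Nonempty
  · have hne' : (sp X ∩ B).Nonempty := ho.mono (inter_subset_inter_left hAB)
    rw [if_pos ho] at h3
    rw [if_pos hne']
    have h2 : t (B ∪ sp X) ≤ b + t (sp X) := by
      have := ht.union B (sp X) (by rwa [inter_comm])
      omega
    calc ‖c X * (ch X A - 1)‖ * r ^ t (B ∪ sp X) ≤ (2 * ‖c X‖) * r ^ (b + t (sp X)) :=
          mul_le_mul h3 (pow_le_pow_right₀ hr h2) (by positivity) (by positivity)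
      _ = 2 * r ^ b * (‖c X‖ * r ^ t (sp X)) := by rw [pow_add]; ring
  · rw [if_neg ho] at h3
    have h4 : ‖c X * (ch X A - 1)‖ = 0 := le_antisymm h3 (norm_nonneg _)
    rw [h4, zero_mul]
    split_ifs
    · positivity
    · exact le_rfl

theorem nm_Gp (h1 : FourS) {t : Finset V → ℕ} (ht : IsSize t) {r : ℝ} (hr : 1 ≤ r)
    (c : (V → Fin d) → ℂ) {A : V → Fin d} {B : Finset V} (hAB : sp A ⊆ B) (hB : B.Nonempty)
    {b : ℕ} (hb : t B ≤ b)
    {κ : ℝ} (hκ : ∀ x, nb r t x c ≤ κ) : nm r t B (Gp c A) ≤ 2 * (r ^ b * b * κ) := by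
  have hr0 : 0 ≤ r := by linarith
  have hκ0 : 0 ≤ κ := by
    obtain ⟨v, hv⟩ := hB
    exact (nb_nonneg hr t v c).trans (hκ v)
  calc nm r t B (Gp c A)
      ≤ ∑ X : V → Fin d, ∑ v ∈ B,
          if X v ≠ 0 then 2 * r ^ b * (((sp X).card : ℝ) * ‖c X‖ * r ^ t (sp X)) else 0 := by
        unfold nm
        refine sum_le_sum fun X _ => ?_
        refine (term_le h1 ht hr c hAB hb X).trans ?_
        have hnn : ∀ v ∈ B, 0 ≤ (if X v ≠ 0 then
            2 * r ^ b * (((sp X).card : ℝ) * ‖c X‖ * r ^ t (sp X)) else 0) := by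
          intro v _
          split_ifs
          · positivity
          · exact le_rfl
        split_ifs with h
        · obtain ⟨v, hv⟩ := h
          rw [mem_inter, mem_sp] at hv
          have h3 := single_le_sum hnn hv.2
          refine le_trans ?_ h3
          simp only [if_pos hv.1]
          refine mul_le_mul_of_nonneg_left ?_ (by positivity)
          refine mul_le_mul_of_nonneg_right ?_ (by positivity)
          have h4 : (1 : ℝ) ≤ ((sp X).card : ℝ) := by
            have : 0 < (sp X).card := card_pos.mpr ⟨v, mem_sp.2 hv.1⟩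
            exact_mod_cast this
          have h5 := norm_nonneg (c X)
          nlinarith
        · exact sum_nonneg hnn
    _ = ∑ v ∈ B, 2 * r ^ b * nb r t v c := by
        rw [sum_comm]
        refine sum_congr rfl fun v _ => ?_
        unfold nb
        rw [mul_sum, sum_filter]
    _ ≤ ∑ v ∈ B, 2 * r ^ b * κ :=
        sum_le_sum fun v _ => mul_le_mul_of_nonneg_left (hκ v) (by positivity)
    _ = (B.card : ℝ) * (2 * r ^ b * κ) := by rw [sum_const, nsmul_eq_mul]
    _ ≤ (b : ℝ) * (2 * r ^ b * κ) := by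
        refine mul_le_mul_of_nonneg_right ?_ (by positivity)
        exact_mod_cast (ht.card B).trans hb
    _ = 2 * (r ^ b * b * κ) := by ring

variable {J : Type} [Fintype J]

theorem count_le {B : J → Finset V} {m : ℕ}
    (hm : ∀ v, (univ.filter fun j => v ∈ B j).card ≤ m) (X : Finset V) :
    (univ.filter fun j => (X ∩ B j).Nonempty).card ≤ m * X.card := by
  classical
  have h1 : (univ.filter fun j => (X ∩ B j).Nonempty) ⊆
      X.biUnion fun v => univ.filter fun j => v ∈ B j := by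
    intro j hj
    rw [mem_filter] at hj
    obtain ⟨v, hv⟩ := hj.2
    rw [mem_inter] at hv
    rw [mem_biUnion]
    exact ⟨v, hv.1, by simp [hv.2]⟩
  calc (univ.filter fun j => (X ∩ B j).Nonempty).card
      ≤ (X.biUnion fun v => univ.filter fun j => v ∈ B j).card := card_le_card h1
    _ ≤ ∑ v ∈ X, (univ.filter fun j => v ∈ B j).card := card_biUnion_le
    _ ≤ ∑ _v ∈ X, m := sum_le_sum fun v _ => hm v
    _ = m * X.card := by rw [sum_const, smul_eq_mul, mul_comm]

theorem sum_nx_Gp (h1 : FourS) {t : Finset V → ℕ} (ht : IsSize t) {r : ℝ} (hr : 1 ≤ r)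
    (c : (V → Fin d) → ℂ) {A : J → V → Fin d} {B : J → Finset V} (hAB : ∀ j, sp (A j) ⊆ B j)
    {b m : ℕ}
    (hb : ∀ j, t (B j) ≤ b) (hm : ∀ v, (univ.filter fun j => v ∈ B j).card ≤ m)
    {κ : ℝ} (x : V) (hκ : nb r t x c ≤ κ) :
    ∑ j, nx r t (B j) x (Gp c (A j)) ≤ 2 * (r ^ b * m * κ) := by
  have hr0 : 0 ≤ r := by linarith
  calc ∑ j, nx r t (B j) x (Gp c (A j))
      ≤ ∑ j, ∑ X ∈ univ.filter (fun X : V → Fin d => X x ≠ 0),
          (if (sp X ∩ B j).Nonempty then 2 * r ^ b * (‖c X‖ * r ^ t (sp X)) else 0) := by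
        unfold nx
        exact sum_le_sum fun j _ => sum_le_sum fun X _ => term_le h1 ht hr c (hAB j) (hb j) X
    _ = ∑ X ∈ univ.filter (fun X : V → Fin d => X x ≠ 0),
          ((univ.filter fun j => (sp X ∩ B j).Nonempty).card : ℝ) *
            (2 * r ^ b * (‖c X‖ * r ^ t (sp X))) := by
        rw [sum_comm]
        refine sum_congr rfl fun X _ => ?_
        rw [← sum_filter, sum_const, nsmul_eq_mul]
    _ ≤ ∑ X ∈ univ.filter (fun X : V → Fin d => X x ≠ 0),
          ((m : ℝ) * (sp X).card) * (2 * r ^ b * (‖c X‖ * r ^ t (sp X))) := by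
        refine sum_le_sum fun X _ => mul_le_mul_of_nonneg_right ?_ (by positivity)
        exact_mod_cast count_le hm (sp X)
    _ = 2 * (r ^ b * m * nb r t x c) := by
        unfold nb
        rw [mul_sum, mul_sum]
        exact sum_congr rfl fun X _ => by ring
    _ ≤ 2 * (r ^ b * m * κ) := by
        refine mul_le_mul_of_nonneg_left ?_ (by norm_num)
        exact mul_le_mul_of_nonneg_left hκ (by positivity)

theorem card_labels (B : Finset V) :
    (univ.filter fun m : V → Fin d => sp m ⊆ B).card ≤ d ^ B.card := by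
  classical
  have h : (univ.filter fun m : V → Fin d => sp m ⊆ B).card ≤
      (univ : Finset (B → Fin d)).card := by
    refine card_le_card_of_injOn (fun m v => m v.1) (fun _ _ => mem_coe.2 (mem_univ _)) ?_
    intro m hm m' hm' h
    rw [mem_coe, mem_filter] at hm hm'
    funext v
    by_cases hv : v ∈ B
    · exact congrFun h ⟨v, hv⟩
    · have h1 : m v = 0 := by
        by_contra hcon
        exact hv (hm.2 (mem_sp.2 hcon))
      have h2 : m' v = 0 := by
        by_contra hcon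
        exact hv (hm'.2 (mem_sp.2 hcon))
      rw [h1, h2]
  refine h.trans ?_
  rw [card_univ, Fintype.card_fun, Fintype.card_fin, Fintype.card_coe]

theorem nm_w {t : Finset V → ℕ} (ht : IsSize t) {r : ℝ} (hr : 1 ≤ r) {b : ℕ} {B : Finset V}
    (hb : t B ≤ b) {w : (V → Fin d) → ℂ} {ω : ℝ} (hω : 0 ≤ ω) (hbd : ∀ Y, ‖co w Y‖ ≤ ω)
    (hs : ∀ Y, ¬ sp Y ⊆ B → co w Y = 0) : nm r t B w ≤ d ^ b * ω * r ^ b := by
  have hr0 : 0 ≤ r := by linarith
  have hd1 : (1 : ℝ) ≤ d := by exact_mod_cast Nat.one_le_iff_ne_zero.2 (NeZero.ne d)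
  calc nm r t B w = ∑ X ∈ univ.filter (fun m : V → Fin d => sp m ⊆ B),
        ‖co w X‖ * r ^ t (B ∪ sp X) := by
        unfold nm
        symm
        refine sum_subset (subset_univ _) fun X _ hX => ?_
        have hX' : ¬ sp X ⊆ B := fun h => hX (mem_filter.2 ⟨mem_univ _, h⟩)
        rw [hs X hX']
        simp
    _ ≤ ∑ _X ∈ univ.filter (fun m : V → Fin d => sp m ⊆ B), ω * r ^ b := by
        refine sum_le_sum fun X hX => ?_
        rw [mem_filter] at hX
        rw [union_eq_left.mpr hX.2]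
        exact mul_le_mul (hbd X) (pow_le_pow_right₀ hr hb) (by positivity) hω
    _ = ((univ.filter (fun m : V → Fin d => sp m ⊆ B)).card : ℝ) * (ω * r ^ b) := by
        rw [sum_const, nsmul_eq_mul]
    _ ≤ (d ^ B.card : ℝ) * (ω * r ^ b) := by
        refine mul_le_mul_of_nonneg_right ?_ (by positivity)
        exact_mod_cast card_labels B
    _ ≤ (d ^ b : ℝ) * (ω * r ^ b) := by
        refine mul_le_mul_of_nonneg_right ?_ (by positivity)
        exact pow_le_pow_right₀ hd1 ((ht.card B).trans hb)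
    _ = d ^ b * ω * r ^ b := by ring

theorem nx_w_zero {t : Finset V → ℕ} {r : ℝ} {B : Finset V}
    {w : (V → Fin d) → ℂ} (hs : ∀ Y, ¬ sp Y ⊆ B → co w Y = 0) {x : V} (hx : x ∉ B) :
    nx r t B x w = 0 := by
  unfold nx
  refine sum_eq_zero fun X hX => ?_
  rw [mem_filter] at hX
  rw [hs X fun h => hx (h (mem_sp.2 hX.2))]
  simp

theorem sum_nx_w {t : Finset V → ℕ} (ht : IsSize t) {r : ℝ} (hr : 1 ≤ r) {b m : ℕ}
    {A : J → V → Fin d} {B : J → Finset V} {w : J → (V → Fin d) → ℂ} {ω : ℝ} (hω : 0 ≤ ω)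
    (hp : IsPert b m t A B w ω) (x : V) :
    ∑ j, nx r t (B j) x (w j) ≤ m * (d ^ b * ω * r ^ b) := by
  have hr0 : 0 ≤ r := by linarith
  calc ∑ j, nx r t (B j) x (w j)
      ≤ ∑ j, if x ∈ B j then (d : ℝ) ^ b * ω * r ^ b else 0 := by
        refine sum_le_sum fun j _ => ?_
        split_ifs with h
        · exact (nx_le_nm hr t _ x _).trans (nm_w ht hr (hp.size j) hω (hp.bd j) (hp.supp j))
        · exact (nx_w_zero (hp.supp j) h).le
    _ = ((univ.filter fun j => x ∈ B j).card : ℝ) * (d ^ b * ω * r ^ b) := by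
        rw [← sum_filter, sum_const, nsmul_eq_mul]
    _ ≤ m * (d ^ b * ω * r ^ b) := by
        refine mul_le_mul_of_nonneg_right ?_ (by positivity)
        exact_mod_cast hp.mult x

/-- the first sum -/
theorem first (h1 : FourS) (h2 : AlgS) (h3 : ExpS) {t : Finset V → ℕ} (ht : IsSize t) {r : ℝ}
    (hr : 1 ≤ r) {b m : ℕ} {A : J → V → Fin d} {B : J → Finset V} {w : J → (V → Fin d) → ℂ}
    {ω : ℝ} (hω : 0 ≤ ω)
    (hp : IsPert b m t A B w ω) {δ η : ℝ} (hδ : δ ≤ 1) {g g' : (V → Fin d) → ℂ}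
    (hg : ∀ x, nb r t x g ≤ δ) (hg' : ∀ x, nb r t x g' ≤ δ)
    (hd : ∀ x, nb r t x (fun X => g X - g' X) ≤ η) (x : V) :
    ∑ j, nx r t (B j) x (fun σ => w j σ * (Complex.exp (Gp g (A j) σ) -
        Complex.exp (Gp g' (A j) σ))) ≤
      d ^ b * r ^ b * Real.exp (2 * (r ^ b * b)) *
        (2 * m * r ^ b * b + 2 * r ^ b * m + 8 * (r ^ b) ^ 2 * b * m) * ω * η := by
  have hr0 : 0 ≤ r := by linarith
  have hη0 : 0 ≤ η := (nb_nonneg hr t x _).trans (hd x)
  have hδ0 : 0 ≤ δ := (nb_nonneg hr t x _).trans (hg x)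
  set R : ℝ := r ^ b with hR
  have hR1 : 1 ≤ R := one_le_pow₀ hr
  set E : ℝ := Real.exp (2 * (R * b)) with hE
  have hE0 : 0 ≤ E := (Real.exp_pos _).le
  set W : ℝ := d ^ b * ω * R with hW
  have hW0 : 0 ≤ W := by positivity
  have hRb : 0 ≤ R * b := by positivity
  have hRbδ : R * b * δ ≤ R * b := by
    calc R * b * δ ≤ R * b * 1 := mul_le_mul_of_nonneg_left hδ hRb
      _ = R * b := mul_one _
  -- the bound for one index
  have key : ∀ j, nx r t (B j) x (fun σ => w j σ * (Complex.exp (Gp g (A j) σ) -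
        Complex.exp (Gp g' (A j) σ))) ≤
      nx r t (B j) x (w j) * (2 * E * (R * b * η)) +
        W * (E * nx r t (B j) x (Gp (fun X => g X - g' X) (A j)) +
          2 * E * (R * b * η) * (nx r t (B j) x (Gp g (A j)) + nx r t (B j) x (Gp g' (A j)))) := by
    intro j
    have a1 := nm_Gp h1 ht hr g (hp.sub j) (hp.ne j) (hp.size j) hg
    have a2 := nm_Gp h1 ht hr g' (hp.sub j) (hp.ne j) (hp.size j) hg'
    have a3 := nm_Gp h1 ht hr (fun X => g X - g' X) (hp.sub j) (hp.ne j) (hp.size j) hd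
    rw [← hR] at a1 a2 a3
    have e1 : nm r t (B j) (Gp g (A j)) ≤ 2 * (R * b) := by linarith
    have e2 : nm r t (B j) (Gp g' (A j)) ≤ 2 * (R * b) := by linarith
    have ed : (fun σ => Gp g (A j) σ - Gp g' (A j) σ) = Gp (fun X => g X - g' X) (A j) := by
      funext σ
      rw [Gp_sub]
    obtain ⟨b1, b2⟩ := h3 d V t r (B j) ht hr (hp.ne j) (Gp g (A j)) (Gp g' (A j))
      (2 * (R * b)) e1 e2
    have b3 := (b2 x).1
    rw [ed, ← hE] at b1
    rw [ed, ← hE] at b3
    have c1 := (h2 d V t r (B j) ht hr (hp.ne j) (w j) (fun σ => Complex.exp (Gp g (A j) σ) -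
      Complex.exp (Gp g' (A j) σ))).2 x
    have c2 : nm r t (B j) (w j) ≤ W := nm_w ht hr (hp.size j) hω (hp.bd j) (hp.supp j)
    have p1 := nx_nonneg hr t (B j) x (w j)
    have p2 := nx_nonneg hr t (B j) x (Gp g (A j))
    have p3 := nx_nonneg hr t (B j) x (Gp g' (A j))
    have p4 := nx_nonneg hr t (B j) x (Gp (fun X => g X - g' X) (A j))
    have p5 := nx_nonneg hr t (B j) x (fun σ => Complex.exp (Gp g (A j) σ) -
      Complex.exp (Gp g' (A j) σ))
    have p6 := nm_nonneg hr t (B j) (w j)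
    have p7 : 0 ≤ R * b * η := by positivity
    set Nd := nm r t (B j) (Gp (fun X => g X - g' X) (A j)) with hNd
    have d0 : E * Nd ≤ E * (2 * (R * b * η)) := mul_le_mul_of_nonneg_left a3 hE0
    have d1 : nm r t (B j) (fun σ => Complex.exp (Gp g (A j) σ) -
        Complex.exp (Gp g' (A j) σ)) ≤ 2 * E * (R * b * η) := by
      refine b1.trans (d0.trans (le_of_eq ?_))
      ring
    have d2 : nx r t (B j) x (fun σ => Complex.exp (Gp g (A j) σ) -
        Complex.exp (Gp g' (A j) σ)) ≤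
        E * nx r t (B j) x (Gp (fun X => g X - g' X) (A j)) +
          2 * E * (R * b * η) * (nx r t (B j) x (Gp g (A j)) + nx r t (B j) x (Gp g' (A j))) := by
      refine b3.trans ?_
      have h4 : E * Nd * (nx r t (B j) x (Gp g (A j)) + nx r t (B j) x (Gp g' (A j))) ≤
          E * (2 * (R * b * η)) *
            (nx r t (B j) x (Gp g (A j)) + nx r t (B j) x (Gp g' (A j))) :=
        mul_le_mul_of_nonneg_right d0 (by linarith)
      refine (add_le_add_right h4 _).trans (le_of_eq ?_)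
      ring
    refine c1.trans (add_le_add (mul_le_mul_of_nonneg_left d1 p1) ?_)
    exact mul_le_mul c2 d2 p5 hW0
  refine (sum_le_sum fun j _ => key j).trans ?_
  rw [sum_add_distrib, ← sum_mul, ← mul_sum, sum_add_distrib, ← mul_sum, ← mul_sum,
    sum_add_distrib]
  have s1 := sum_nx_w ht hr hω hp x
  have s2 := sum_nx_Gp h1 ht hr (fun X => g X - g' X) hp.sub hp.size hp.mult x (hd x)
  have s3 := sum_nx_Gp h1 ht hr g hp.sub hp.size hp.mult x (hg x)
  have s4 := sum_nx_Gp h1 ht hr g' hp.sub hp.size hp.mult x (hg' x)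
  rw [← hR] at s1 s2 s3 s4
  rw [← hW] at s1
  have p7 : 0 ≤ R * b * η := by positivity
  have q1 : (∑ j, nx r t (B j) x (w j)) * (2 * E * (R * b * η)) ≤ (m * W) * (2 * E * (R * b * η)) :=
    mul_le_mul_of_nonneg_right s1 (by positivity)
  have q2 : 2 * E * (R * b * η) * (∑ j, nx r t (B j) x (Gp g (A j)) +
      ∑ j, nx r t (B j) x (Gp g' (A j))) ≤
        2 * E * (R * b * η) * (2 * (R * m * δ) + 2 * (R * m * δ)) :=
    mul_le_mul_of_nonneg_left (add_le_add s3 s4) (by positivity)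
  have q3 : 2 * E * (R * b * η) * (2 * (R * m * δ) + 2 * (R * m * δ)) ≤
      2 * E * (R * b * η) * (4 * (R * m)) := by
    refine mul_le_mul_of_nonneg_left ?_ (by positivity)
    have h5 : R * m * δ ≤ R * m * 1 := mul_le_mul_of_nonneg_left hδ (by positivity)
    linarith
  have q5 : E * ∑ j, nx r t (B j) x (Gp (fun X => g X - g' X) (A j)) ≤ E * (2 * (R * m * η)) :=
    mul_le_mul_of_nonneg_left s2 (by positivity)
  have q4 : W * (E * ∑ j, nx r t (B j) x (Gp (fun X => g X - g' X) (A j)) +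
      2 * E * (R * b * η) * (∑ j, nx r t (B j) x (Gp g (A j)) +
        ∑ j, nx r t (B j) x (Gp g' (A j)))) ≤
      W * (E * (2 * (R * m * η)) + 2 * E * (R * b * η) * (4 * (R * m))) :=
    mul_le_mul_of_nonneg_left (by linarith) hW0
  refine (add_le_add q1 q4).trans (le_of_eq ?_)
  rw [hW]
  ring

end

/-- **JPart** -/
theorem main (h1 : FourS) (h2 : AlgS) (h3 : ExpS) : JPart := by
  intro d _ b m r hr
  have hr0 : 0 < r := by linarith
  set R : ℝ := r ^ b with hR
  have hR1 : 1 ≤ R := one_le_pow₀ hr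
  obtain ⟨K₁, hK₁⟩ : ∃ K₁ : ℝ, K₁ = d ^ b * R * Real.exp (2 * (R * b)) *
        (2 * m * R * b + 2 * R * m + 8 * R ^ 2 * b * m) := ⟨_, rfl⟩
  have hK₁0 : 0 ≤ K₁ := by
    rw [hK₁]
    positivity
  refine ⟨K₁ + m * (d ^ b * R) + 1, by positivity, ?_⟩
  intro V _ _ J _ t A B w ω δ η ht hω hp hδ g g' hg hg' hd x
  have hη0 : 0 ≤ η := (nb_nonneg hr t x _).trans (hd x)
  have hδ0 : 0 ≤ δ := (nb_nonneg hr t x _).trans (hg x)
  have f1 := first h1 h2 h3 ht hr hω hp hδ hg hg' hd x
  rw [← hR, ← hK₁] at f1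
  have hmR : 0 ≤ (m : ℝ) * (d ^ b * R) + 1 := by positivity
  constructor
  · refine f1.trans ?_
    have h6 : 0 ≤ (m * (d ^ b * R) + 1) * (ω * η) := by positivity
    linarith
  · have hz : ∀ x, nb r t x (fun _ : V → Fin d => (0 : ℂ)) ≤ δ := by
      intro y
      unfold nb
      rw [sum_eq_zero]
      · exact hδ0
      · intro X _
        simp
    have hgd : ∀ x, nb r t x (fun X => g X - (fun _ : V → Fin d => (0 : ℂ)) X) ≤ δ := by
      intro y
      simpa using hg y
    have f2 := first h1 h2 h3 ht hr hω hp hδ hg hz hgd x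
    rw [← hR, ← hK₁] at f2
    have f3 := sum_nx_w ht hr hω hp x
    rw [← hR] at f3
    have f4 : ∑ j, nx r t (B j) x (fun σ => w j σ * Complex.exp (Gp g (A j) σ)) ≤
        ∑ j, (nx r t (B j) x (fun σ => w j σ * (Complex.exp (Gp g (A j) σ) -
          Complex.exp (Gp (fun _ => 0) (A j) σ))) + nx r t (B j) x (w j)) := by
      refine sum_le_sum fun j _ => ?_
      have e : (fun σ => w j σ * Complex.exp (Gp g (A j) σ)) =
          fun σ => w j σ * (Complex.exp (Gp g (A j) σ) -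
            Complex.exp (Gp (fun _ => 0) (A j) σ)) + w j σ := by
        funext σ
        rw [Gp_zero]
        simp
        ring
      rw [e]
      exact nx_add hr t (B j) x _ _
    rw [sum_add_distrib] at f4
    refine f4.trans ((add_le_add f2 f3).trans ?_)
    have h7 : K₁ * ω * δ ≤ K₁ * ω * 1 := mul_le_mul_of_nonneg_left hδ (by positivity)
    linarith

end Pool.Agent.Q123.KG.JP
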