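import Pool.Agent.Q234.KG.Stm

/-!
# Project KG (helper234), job MA: the Hamiltonian in terms of shifts
-/

set_option autoImplicit false
set_option linter.unusedSectionVars false
set_option linter.unusedVariables false

open scoped BigOperators
open Finset Pool.Agent.TH235.PP

namespace Pool.Agent.Q123.KG.MA

open Pool.Agent.Q234.KG
open Pool.Agent.Q234.KT (bx)

theorem sh_inj {n L : ℕ} (hn : n ≤ L) (u : Site L) : Function.Injective (sh u : Fin n × Fin n → Site L) := by
  intro x y h
  unfold sh at h
  rw [Prod.mk.injEq, add_right_inj, add_right_inj, ZMod.natCast_eq_natCast_iff', ZMod.natCast_eq_natCast_iff',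
    Nat.mod_eq_of_lt (x.1.2.trans_le hn), Nat.mod_eq_of_lt (y.1.2.trans_le hn), Nat.mod_eq_of_lt (x.2.2.trans_le hn),
    Nat.mod_eq_of_lt (y.2.2.trans_le hn)] at h
  exact Prod.ext (Fin.ext h.1) (Fin.ext h.2)

section
variable {n L d : ℕ} [NeZero d]

theorem push_sh (hn : n ≤ L) (u : Site L) (a : Fin n × Fin n → Fin d) (x : Fin n × Fin n) :
    push u a (sh u x) = a x := by
  unfold push
  rw [Finset.sum_eq_single x]
  · rw [if_pos rfl]
  · intro y _ hy
    rw [if_neg]
    intro h
    exact hy (sh_inj hn u h)
  · intro h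
    exact absurd (mem_univ _) h

theorem push_off (u : Site L) (a : Fin n × Fin n → Fin d) (v : Site L)
    (hv : ∀ x : Fin n × Fin n, sh u x ≠ v) : push u a v = 0 := by
  unfold push
  refine Finset.sum_eq_zero fun x _ => ?_
  rw [if_neg (hv x)]

theorem push_inj (hn : n ≤ L) (u : Site L) :
    Function.Injective (push u : (Fin n × Fin n → Fin d) → Site L → Fin d) := by
  intro a b h
  funext x
  rw [← push_sh hn u a x, ← push_sh hn u b x, h]

variable [NeZero L]

/-- the term at `u` -/
theorem term_sum (hn : n ≤ L) (k : BoxOp d n) (u : Site L) (F : (Site L → Fin d) → ℂ)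
    (σ : Site L → Fin d) : ∑ τ, term k u σ τ * F τ =
      ∑ a : Fin n × Fin n → Fin d, k (fun x => σ (sh u x)) (fun x => σ (sh u x) + a x) *
        F (σ + push u a) := by
  classical
  have hinj : Function.Injective (fun a : Fin n × Fin n → Fin d => σ + push u a) := by
    intro a b h
    exact push_inj hn u (add_left_cancel h)
  have h1 : ∑ a : Fin n × Fin n → Fin d, k (fun x => σ (sh u x)) (fun x => σ (sh u x) + a x) *
      F (σ + push u a) =
      ∑ a : Fin n × Fin n → Fin d, (fun τ => term k u σ τ * F τ) (σ + push u a) := by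
    refine Finset.sum_congr rfl fun a _ => ?_
    beta_reduce
    congr 1
    unfold term
    rw [if_pos]
    · congr 1
      funext x
      rw [Pi.add_apply, push_sh hn]
    · intro v hv
      rw [Pi.add_apply, push_off u a v hv, add_zero]
  rw [h1, ← Finset.sum_image (f := fun τ => term k u σ τ * F τ)
    (s := (univ : Finset (Fin n × Fin n → Fin d)))
    (g := fun a => σ + push u a) (fun a _ b _ h => hinj h)]
  symm
  refine Finset.sum_subset (Finset.subset_univ _) fun τ _ hτ => ?_
  have h2 : term k u σ τ = 0 := by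
    unfold term
    rw [if_neg]
    intro h
    refine hτ ?_
    rw [mem_image]
    refine ⟨fun x => τ (sh u x) - σ (sh u x), mem_univ _, ?_⟩
    funext v
    rw [Pi.add_apply]
    by_cases hv : ∃ x : Fin n × Fin n, sh u x = v
    · obtain ⟨x, rfl⟩ := hv
      rw [push_sh hn, add_sub_cancel]
    · push Not at hv
      rw [push_off u _ v hv, add_zero, h v hv]
  rw [h2, zero_mul]

/-- the one site part -/
theorem site_sum (hn : n ≤ L) (hn1 : 1 ≤ n) (α : Fin d → ℂ) (u : Site L) (F : (Site L → Fin d) → ℂ)
    (σ : Site L → Fin d) :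
      ∑ a : Fin n × Fin n → Fin d,
        site α n (fun x => σ (sh u x)) (fun x => σ (sh u x) + a x) * F (σ + push u a) =
        ∑ c, α c * F (σ + Pi.single u c) := by
  classical
  set z : Fin n × Fin n := (⟨0, hn1⟩, ⟨0, hn1⟩) with hz
  have hz0 : ∀ x : Fin n × Fin n, ((x.1 : ℕ) = 0 ∧ (x.2 : ℕ) = 0) ↔ x = z := by
    intro x
    constructor
    · rintro ⟨h1, h2⟩
      exact Prod.ext (Fin.ext h1) (Fin.ext h2)
    · rintro rfl
      exact ⟨rfl, rfl⟩
  have hshz : sh u z = u := by
    unfold sh
    simp [hz]
  have hpush : ∀ c : Fin d, push u (Pi.single z c) = Pi.single u c := by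
    intro c
    funext v
    by_cases hv : ∃ x : Fin n × Fin n, sh u x = v
    · obtain ⟨x, rfl⟩ := hv
      rw [push_sh hn]
      by_cases hx : x = z
      · rw [hx, hshz, Pi.single_eq_same, Pi.single_eq_same]
      · rw [Pi.single_eq_of_ne hx, Pi.single_eq_of_ne]
        intro h
        exact hx (sh_inj hn u (h.trans hshz.symm))
    · push Not at hv
      rw [push_off u _ v hv, Pi.single_eq_of_ne]
      intro h
      exact hv z (hshz.trans h.symm)
  have hsite : ∀ a : Fin n × Fin n → Fin d,
      site α n (fun x => σ (sh u x)) (fun x => σ (sh u x) + a x) =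
        ∑ c : Fin d, if a = Pi.single z c then α c else 0 := by
    intro a
    unfold site
    refine Finset.sum_congr rfl fun c _ => ?_
    have h : (∀ x : Fin n × Fin n, σ (sh u x) + a x =
        if (x.1 : ℕ) = 0 ∧ (x.2 : ℕ) = 0 then σ (sh u x) + c else σ (sh u x)) ↔
        a = Pi.single z c := by
      constructor
      · intro h
        funext x
        have h1 := h x
        by_cases hx : x = z
        · rw [if_pos ((hz0 x).2 hx), add_right_inj] at h1
          rw [h1, hx, Pi.single_eq_same]
        · rw [if_neg (fun h' => hx ((hz0 x).1 h')), add_eq_left] at h1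
          rw [h1, Pi.single_eq_of_ne hx]
      · intro h x
        rw [h]
        by_cases hx : x = z
        · rw [if_pos ((hz0 x).2 hx), hx, Pi.single_eq_same]
        · rw [if_neg (fun h' => hx ((hz0 x).1 h')), Pi.single_eq_of_ne hx, add_zero]
    by_cases hc : a = Pi.single z c
    · rw [if_pos hc, if_pos (h.2 hc)]
    · rw [if_neg hc, if_neg (fun h' => hc (h.1 h'))]
  simp only [hsite, Finset.sum_mul]
  rw [Finset.sum_comm]
  refine Finset.sum_congr rfl fun c _ => ?_
  rw [Finset.sum_eq_single (Pi.single z c)]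
  · rw [if_pos rfl, hpush]
  · intro a _ ha
    rw [if_neg ha, zero_mul]
  · intro h
    exact absurd (mem_univ _) h

end

/-- **MatS** -/
theorem main (hW : FourS) : MatS := by
  intro d n L _ _ α h δ hn1 hnL hδ
  classical
  constructor
  · intro F σ
    have h1 : (ham h L).mulVec F σ = ∑ u : Site L, ∑ τ, term h u σ τ * F τ := by
      unfold ham
      show ∑ τ, (∑ u : Site L, term h u) σ τ * F τ = _
      rw [Finset.sum_comm]
      refine Finset.sum_congr rfl fun τ _ => ?_
      rw [Matrix.sum_apply, Finset.sum_mul]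
    rw [h1]
    have h2 : ∑ j : Site L × (Fin n × Fin n → Fin d), wj α h j σ * F (σ + push j.1 j.2) =
        ∑ u : Site L, ∑ a : Fin n × Fin n → Fin d, wj α h (u, a) σ * F (σ + push u a) :=
      Fintype.sum_prod_type _
    unfold Hf
    rw [h2, ← Finset.sum_add_distrib]
    refine Finset.sum_congr rfl fun u _ => ?_
    rw [term_sum hnL, ← site_sum hnL hn1 α u F σ, ← Finset.sum_add_distrib]
    refine Finset.sum_congr rfl fun a _ => ?_
    unfold wj
    simp only
    ring
  · intro t ht
    obtain ⟨_, _, _, _, _, hW6, hW7, _⟩ := hW d (Site L)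
    refine ⟨fun j => ?_, fun j => ?_, fun j => ht j.1, fun v => ?_, fun j Y => ?_, fun j Y hY => ?_⟩
    · intro v hv
      unfold sp at hv
      rw [mem_filter] at hv
      by_contra hcon
      refine hv.2 (push_off _ _ v fun x hx => hcon ?_)
      rw [← hx]
      exact Finset.mem_image_of_mem _ (mem_univ _)
    · refine ⟨sh j.1 ((⟨0, hn1⟩, ⟨0, hn1⟩) : Fin n × Fin n), ?_⟩
      exact Finset.mem_image_of_mem _ (mem_univ _)
    · have h1 : (univ.filter fun j : Site L × (Fin n × Fin n → Fin d) => v ∈ bx n j.1) ⊆
          (univ.image (fun x : Fin n × Fin n => ((v.1 - ((x.1 : ℕ) : ZMod L), v.2 - ((x.2 : ℕ) : ZMod L)) : Site L))) ×ˢ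
            (univ : Finset (Fin n × Fin n → Fin d)) := by
        rintro ⟨u, a⟩ hj
        rw [mem_filter] at hj
        obtain ⟨x, _, hx⟩ := mem_image.1 hj.2
        rw [mem_product]
        refine ⟨mem_image.2 ⟨x, mem_univ _, ?_⟩, mem_univ _⟩
        rw [← hx]
        unfold sh
        simp
      refine (Finset.card_le_card h1).trans ?_
      rw [Finset.card_product, Finset.card_univ (α := Fin n × Fin n → Fin d), Fintype.card_fun,
        Fintype.card_prod, Fintype.card_fin, Fintype.card_fin, ← sq]
      refine Nat.mul_le_mul_right _ (Finset.card_image_le.trans ?_)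
      rw [Finset.card_univ, Fintype.card_prod, Fintype.card_fin, sq]
    · refine hW6 _ δ (fun σ => ?_) Y
      unfold wj
      exact hδ _ _
    · refine hW7 _ _ (fun σ τ hστ => ?_) Y hY
      have h1 : (fun x => σ (sh j.1 x)) = fun x : Fin n × Fin n => τ (sh j.1 x) := by
        funext x
        exact hστ _ (Finset.mem_image_of_mem _ (mem_univ _))
      have h2 : (fun x => σ (sh j.1 x) + j.2 x) = fun x : Fin n × Fin n => τ (sh j.1 x) + j.2 x := by
        funext x
        rw [congrFun h1 x]
      unfold wj
      rw [h1, h2]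

end Pool.Agent.Q123.KG.MA
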